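import Pool.Agent.Helper30.UB.St

/-!
Project UB (MP_16cbc0_nt), module EUP: the finite Euler product inequality in `F[X]`.
-/

set_option autoImplicit false

open Polynomial

noncomputable section

namespace Pool.Agent.Helper22.UB

open Finset
open Pool.Agent.Helper15.FC
open Pool.Agent.Helper30.UB

private theorem geo {x : ℝ} (h0 : 0 ≤ x) (h1 : x ≤ 3 / 4) (N : ℕ) :
    ∑ e ∈ range N, x ^ e ≤ 1 + 4 * x := by
  have h := geom_sum_mul_neg x N
  have hx : 0 < 1 - x := by linarith
  have hp : 0 ≤ x ^ N := pow_nonneg h0 N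
  have h2 : 1 ≤ (1 + 4 * x) * (1 - x) := by nlinarith
  have h3 : (∑ e ∈ range N, x ^ e) * (1 - x) ≤ (1 + 4 * x) * (1 - x) := by linarith
  exact le_of_mul_le_mul_right h3 hx

private theorem nf_inj {F : Type} [Field F] {P Q : F[X]} (hP : P.Monic) (hQ : Q.Monic)
    (h : nf P = nf Q) : P = Q := by
  classical
  have h1 : Associated (nf P).prod P :=
    UniqueFactorizationMonoid.prod_normalizedFactors hP.ne_zero
  have h2 : Associated (nf Q).prod Q :=
    UniqueFactorizationMonoid.prod_normalizedFactors hQ.ne_zero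
  rw [h] at h1
  exact Polynomial.eq_of_monic_of_associated hP hQ (h1.symm.trans h2)

/-- EUP: the finite Euler product inequality. -/
theorem hEUP : StEUP := by
  intro F _ _ S x hS Q hQ
  classical
  set N : ℕ := ∑ P ∈ Q, Multiset.card (nf P) with hN
  let φ : F[X] → ((a : F[X]) → a ∈ S → ℕ) := fun P a _ => (nf P).count a
  let g : ((a : F[X]) → a ∈ S → ℕ) → ℝ := fun p => ∏ a ∈ S.attach, x a.1 ^ p a.1 a.2
  have hval : ∀ P ∈ Q, ((nf P).map x).prod = g (φ P) := by
    intro P hP
    have h1 : ((nf P).map x).prod = ∏ a ∈ (nf P).toFinset, x a ^ (nf P).count a :=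
      Finset.prod_multiset_map_count (nf P) x
    have hsub : (nf P).toFinset ⊆ S := by
      intro a ha
      exact (hQ P hP).2 a (Multiset.mem_toFinset.1 ha)
    have h2 : ∏ a ∈ (nf P).toFinset, x a ^ (nf P).count a = ∏ a ∈ S, x a ^ (nf P).count a := by
      refine Finset.prod_subset hsub ?_
      intro a _ ha
      have : (nf P).count a = 0 := Multiset.count_eq_zero.2 fun h => ha (Multiset.mem_toFinset.2 h)
      rw [this, pow_zero]
    rw [h1, h2]
    exact (Finset.prod_attach S (fun a => x a ^ (nf P).count a)).symm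
  have hmem : ∀ P ∈ Q, φ P ∈ S.pi (fun _ => range (N + 1)) := by
    intro P hP
    rw [Finset.mem_pi]
    intro a _
    rw [Finset.mem_range]
    have h1 : (nf P).count a ≤ Multiset.card (nf P) := Multiset.count_le_card a (nf P)
    have h2 : Multiset.card (nf P) ≤ N :=
      Finset.single_le_sum (f := fun P => Multiset.card (nf P)) (fun _ _ => Nat.zero_le _) hP
    change (nf P).count a < N + 1
    omega
  have hinj : Set.InjOn φ (Q : Set F[X]) := by
    intro P hP P' hP' h
    refine nf_inj (hQ P hP).1 (hQ P' hP').1 ?_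
    refine Multiset.ext.2 fun a => ?_
    by_cases ha : a ∈ S
    · exact congrFun (congrFun h a) ha
    · have e1 : (nf P).count a = 0 := Multiset.count_eq_zero.2 fun h' => ha ((hQ P hP).2 a h')
      have e2 : (nf P').count a = 0 := Multiset.count_eq_zero.2 fun h' => ha ((hQ P' hP').2 a h')
      rw [e1, e2]
  have hg0 : ∀ p : (a : F[X]) → a ∈ S → ℕ, 0 ≤ g p := by
    intro p
    refine Finset.prod_nonneg fun a _ => pow_nonneg (hS a.1 a.2).2.2.1 _
  calc ∑ P ∈ Q, ((nf P).map x).prod = ∑ P ∈ Q, g (φ P) := Finset.sum_congr rfl hval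
    _ = ∑ p ∈ Q.image φ, g p := by
        rw [Finset.sum_image hinj]
    _ ≤ ∑ p ∈ S.pi (fun _ => range (N + 1)), g p := by
        refine Finset.sum_le_sum_of_subset_of_nonneg ?_ fun p _ _ => hg0 p
        intro p hp
        obtain ⟨P, hP, rfl⟩ := Finset.mem_image.1 hp
        exact hmem P hP
    _ = ∏ a ∈ S, ∑ e ∈ range (N + 1), x a ^ e := by
        rw [Finset.prod_sum]
    _ ≤ ∏ a ∈ S, (1 + 4 * x a) := by
        refine Finset.prod_le_prod ?_ ?_
        · intro a ha
          exact Finset.sum_nonneg fun e _ => pow_nonneg (hS a ha).2.2.1 _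
        · intro a ha
          exact geo (hS a ha).2.2.1 (hS a ha).2.2.2 _

end Pool.Agent.Helper22.UB
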